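import Pool.Agent.Q267.ST.Stm

/-! # Project ST of helper267: the auxiliary vector (JOB ST-Aux) -/

set_option autoImplicit false

namespace Pool.Agent.Q121.ST

open Finset
open Pool.Agent.Q267.ST

variable {k : Type} [Field k] {I : Type} [Fintype I]

theorem opL_add (q : Polynomial k) (M : I → I → Polynomial k) (c d : I → Polynomial k) :
    opL q M (c + d) = opL q M c + opL q M d := by
  funext e
  simp only [opL, Pi.add_apply, Polynomial.derivative_add, mul_add, sum_add_distrib]
  ring

theorem opL_smul (q : Polynomial k) (M : I → I → Polynomial k) (x : k) (c : I → Polynomial k) :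
    opL q M (x • c) = x • opL q M c := by
  funext e
  simp only [opL, Pi.smul_apply, Polynomial.derivative_smul, mul_smul_comm, smul_add, smul_sum]

theorem iter_add (q : Polynomial k) (M : I → I → Polynomial k) (n : ℕ) (c d : I → Polynomial k) :
    (opL q M)^[n] (c + d) = (opL q M)^[n] c + (opL q M)^[n] d := by
  induction n with
  | zero => rfl
  | succ n ih => rw [Function.iterate_succ_apply', ih, opL_add, Function.iterate_succ_apply',
      Function.iterate_succ_apply']

theorem iter_smul (q : Polynomial k) (M : I → I → Polynomial k) (n : ℕ) (x : k) (c : I → Polynomial k) :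
    (opL q M)^[n] (x • c) = x • (opL q M)^[n] c := by
  induction n with
  | zero => rfl
  | succ n ih => rw [Function.iterate_succ_apply', ih, opL_smul, Function.iterate_succ_apply']

theorem degree_opL {q : Polynomial k} {M : I → I → Polynomial k} {δ : ℕ} (hq : q.natDegree ≤ δ)
    (hM : ∀ i j, (M i j).natDegree ≤ δ) {c : I → Polynomial k} {A : ℕ} (hc : ∀ i, c i ∈ Polynomial.degreeLT k A)
    (i : I) : opL q M c i ∈ Polynomial.degreeLT k (A + δ) := by
  have hmul : ∀ f g : Polynomial k, f.natDegree ≤ δ → g ∈ Polynomial.degreeLT k A →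
      f * g ∈ Polynomial.degreeLT k (A + δ) := by
    intro f g hf hg
    rw [Polynomial.mem_degreeLT] at hg ⊢
    rcases eq_or_ne g 0 with rfl | hg0
    · rw [mul_zero, Polynomial.degree_zero]
      exact WithBot.bot_lt_coe _
    rcases eq_or_ne f 0 with rfl | hf0
    · rw [zero_mul, Polynomial.degree_zero]
      exact WithBot.bot_lt_coe _
    rw [Polynomial.degree_eq_natDegree hg0] at hg
    rw [Polynomial.degree_eq_natDegree (mul_ne_zero hf0 hg0), Polynomial.natDegree_mul hf0 hg0]
    have h1 : g.natDegree < A := by exact_mod_cast hg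
    have h2 : f.natDegree + g.natDegree < A + δ := by omega
    exact_mod_cast h2
  unfold opL
  refine Submodule.add_mem _ (hmul _ _ hq ?_) (Submodule.sum_mem _ fun j _ => hmul _ _ (hM i j) (hc j))
  have h1 := hc i
  rw [Polynomial.mem_degreeLT] at h1 ⊢
  exact (Polynomial.degree_derivative_le).trans_lt h1

theorem degree_iter {q : Polynomial k} {M : I → I → Polynomial k} {δ : ℕ} (hq : q.natDegree ≤ δ)
    (hM : ∀ i j, (M i j).natDegree ≤ δ) {c : I → Polynomial k} {A : ℕ} (hc : ∀ i, c i ∈ Polynomial.degreeLT k A)
    (n : ℕ) : ∀ i, (opL q M)^[n] c i ∈ Polynomial.degreeLT k (A + n * δ) := by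
  induction n with
  | zero =>
    intro i
    rw [zero_mul, add_zero, Function.iterate_zero_apply]
    exact hc i
  | succ n ih =>
    intro i
    rw [Function.iterate_succ_apply', Nat.succ_mul, ← add_assoc]
    exact degree_opL hq hM ih i

/-- JOB ST-Aux -/
theorem aux : S_Aux := by
  classical
  intro k _ I _ _ I₀ q M δ N β hq hM hcount
  set A₀ : ℕ := β + N * δ + 1 with hA₀
  set B : ℕ := A₀ + N * δ + β with hB
  -- the vector of polynomials with given coefficients
  let vec : (Fin β × I × Fin A₀ → k) → ℕ → I → Polynomial k := fun x b i =>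
    if h : b < β then ((Polynomial.degreeLTEquiv k A₀).symm fun m => x (⟨b, h⟩, i, m)).1 else 0
  have vec_add : ∀ x y b, vec (x + y) b = vec x b + vec y b := by
    intro x y b
    funext i
    simp only [vec, Pi.add_apply]
    split_ifs with h
    · have e : (fun m : Fin A₀ => x (⟨b, h⟩, i, m) + y (⟨b, h⟩, i, m)) =
          (fun m : Fin A₀ => x (⟨b, h⟩, i, m)) + fun m : Fin A₀ => y (⟨b, h⟩, i, m) := rfl
      rw [e, map_add]
      rfl
    · rw [add_zero]
  have vec_smul : ∀ (t : k) x b, vec (t • x) b = t • vec x b := by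
    intro t x b
    funext i
    simp only [vec, Pi.smul_apply]
    split_ifs with h
    · have e : (fun m : Fin A₀ => t • x (⟨b, h⟩, i, m)) = t • fun m : Fin A₀ => x (⟨b, h⟩, i, m) := rfl
      rw [e, map_smul]
      rfl
    · rw [smul_zero]
  -- the equations
  let T : (Fin β × I × Fin A₀ → k) →ₗ[k] (Fin N × I₀ × Fin B → k) :=
    { toFun := fun x p => (∑ b ∈ range β, Polynomial.X ^ b * (opL q M)^[p.1] (vec x b) p.2.1).coeff p.2.2
      map_add' := by
        intro x y
        funext p
        simp only [vec_add, iter_add, Pi.add_apply, mul_add, sum_add_distrib, Polynomial.coeff_add]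
      map_smul' := by
        intro t x
        funext p
        simp only [vec_smul, iter_smul, Pi.smul_apply, mul_smul_comm, RingHom.id_apply]
        rw [← smul_sum, Polynomial.coeff_smul] }
  have hdim : Module.finrank k (Fin N × I₀ × Fin B → k) < Module.finrank k (Fin β × I × Fin A₀ → k) := by
    rw [Module.finrank_fintype_fun_eq_card, Module.finrank_fintype_fun_eq_card]
    simp only [Fintype.card_prod, Fintype.card_fin, Fintype.card_coe]
    have h1 : B < 2 * A₀ := by omega
    calc N * (I₀.card * B) ≤ N * (I₀.card * (2 * A₀)) := by gcongr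
      _ = (2 * N * I₀.card) * A₀ := by ring
      _ < (β * Fintype.card I) * A₀ := Nat.mul_lt_mul_of_pos_right hcount (by omega)
      _ = β * (Fintype.card I * A₀) := by ring
  obtain ⟨x, hx, hx0⟩ : ∃ x, T x = 0 ∧ x ≠ 0 := by
    have h1 := LinearMap.ker_ne_bot_of_finrank_lt (f := T) hdim
    obtain ⟨x, hx, hx0⟩ := (Submodule.ne_bot_iff _).1 h1
    exact ⟨x, hx, hx0⟩
  have hmem : ∀ b i, vec x b i ∈ Polynomial.degreeLT k A₀ := by
    intro b i
    simp only [vec]
    split_ifs with h
    · exact ((Polynomial.degreeLTEquiv k A₀).symm fun m => x (⟨b, h⟩, i, m)).2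
    · exact Submodule.zero_mem _
  refine ⟨vec x, fun b i => Polynomial.mem_degreeLT.1 (hmem b i), fun b hb => ?_, fun hcon => ?_, ?_⟩
  · funext i
    simp only [vec]
    rw [dif_neg (by omega)]
    rfl
  · apply hx0
    funext p
    obtain ⟨b, i, m⟩ := p
    have h1 : vec x b i = 0 := by rw [hcon]; rfl
    simp only [vec] at h1
    rw [dif_pos b.2] at h1
    have h2 : (Polynomial.degreeLTEquiv k A₀).symm (fun m => x (⟨b, b.2⟩, i, m)) = 0 := Subtype.ext h1
    rw [LinearEquiv.map_eq_zero_iff] at h2
    exact congrFun h2 m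
  · intro n hn e he
    have hdeg : (∑ b ∈ range β, Polynomial.X ^ b * (opL q M)^[n] (vec x b) e) ∈ Polynomial.degreeLT k B := by
      refine Submodule.sum_mem _ fun b hb => ?_
      rw [mem_range] at hb
      have h1 := degree_iter hq hM (hmem b) n e
      rw [Polynomial.mem_degreeLT] at h1 ⊢
      rcases eq_or_ne ((opL q M)^[n] (vec x b) e) 0 with h0 | h0
      · rw [h0, mul_zero, Polynomial.degree_zero]
        exact WithBot.bot_lt_coe _
      · rw [Polynomial.degree_eq_natDegree h0] at h1
        rw [Polynomial.degree_eq_natDegree (mul_ne_zero (pow_ne_zero _ Polynomial.X_ne_zero) h0),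
          Polynomial.natDegree_mul (pow_ne_zero _ Polynomial.X_ne_zero) h0, Polynomial.natDegree_X_pow]
        have h2 : ((opL q M)^[n] (vec x b) e).natDegree < A₀ + n * δ := by exact_mod_cast h1
        have h3 : n * δ ≤ N * δ := Nat.mul_le_mul_right _ hn.le
        have h4 : b + ((opL q M)^[n] (vec x b) e).natDegree < B := by omega
        exact_mod_cast h4
    ext m
    rw [Polynomial.coeff_zero]
    by_cases hm : m < B
    · have h1 := congrFun hx (⟨n, hn⟩, ⟨e, he⟩, ⟨m, hm⟩)
      exact h1
    · apply Polynomial.coeff_eq_zero_of_degree_lt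
      rw [Polynomial.mem_degreeLT] at hdeg
      refine hdeg.trans_le ?_
      exact_mod_cast not_lt.1 hm

end Pool.Agent.Q121.ST
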