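import Pool.Agent.Q164.ST.Stm

set_option autoImplicit false

/-! Project ST (MP_b146e7_co): JOB CNT (helper121) -/

namespace Pool.Agent.Q121.ST

open Pool.Agent.Q164.ST

theorem iter_comm {V : Type} {f g : V → V} {ρ : V → V} (hρ : ∀ v, ρ (f v) = g (ρ v)) (k : ℕ)
    (v : V) : ρ (f^[k] v) = g^[k] (ρ v) := by
  induction k generalizing v with
  | zero => rfl
  | succ k ih => rw [Function.iterate_succ_apply, Function.iterate_succ_apply, ih, hρ]

theorem dsz_comm {V : Type} {f g : V → V} (ρ : V ≃ V) (hρ : ∀ v, ρ (f v) = g (ρ v)) (x : V) :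
    dsz g (ρ x) = dsz f x := by
  unfold dsz
  have : {y : V | ∃ k : ℕ, g^[k] y = ρ x} = ρ '' {y : V | ∃ k : ℕ, f^[k] y = x} := by
    ext y
    constructor
    · rintro ⟨k, hk⟩
      refine ⟨ρ.symm y, ⟨k, ?_⟩, ρ.apply_symm_apply y⟩
      apply ρ.injective
      rw [iter_comm hρ, ρ.apply_symm_apply, hk]
    · rintro ⟨w, ⟨k, hk⟩, rfl⟩
      exact ⟨k, by rw [← iter_comm hρ, hk]⟩
  rw [this, Set.ncard_image_of_injective _ ρ.injective]

theorem task_CNT : S_RIG → S_HEAVY → S_CODE → S_THEQ → S_CNT := by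
  classical
  intro hRIG hHEAVY hCODE hTHEQ V _ r K p S d F hd hS hrK hp hpK hF hth T
  have hz0 : ∀ f : V → V, ∃ z : V, ∀ h : Nonempty (tr f ≃g T), ∃ π : tr f ≃g T, π r = z := by
    intro f
    by_cases h : Nonempty (tr f ≃g T)
    · exact ⟨h.some r, fun _ => ⟨h.some, rfl⟩⟩
    · exact ⟨r, fun h' => absurd h' h⟩
  choose z hz using hz0
  have hfin : {f | f ∈ F ∧ Nonempty (tr f ≃g T)}.Finite := Set.toFinite _
  rw [Set.ncard_eq_toFinset_card _ hfin]
  have key : ∀ b ∈ (Finset.univ : Finset V),
      (hfin.toFinset.filter (fun f => z f = b)).card ≤ (d ^ d) ^ (Fintype.card V / S) := by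
    intro b _
    rcases (hfin.toFinset.filter (fun f => z f = b)).eq_empty_or_nonempty with he | ⟨g, hg⟩
    · rw [he]; simp
    · rw [Finset.mem_filter, Set.Finite.mem_toFinset] at hg
      obtain ⟨⟨hgF, hgT⟩, hgz⟩ := hg
      obtain ⟨hg1, hg2, hg3, hg4⟩ := hF g hgF
      obtain ⟨πg, hπg⟩ := hz g hgT
      have hρ0 : ∀ f : V → V, ∃ ρ : V ≃ V, f ∈ F → Nonempty (tr f ≃g T) → z f = b →
          ρ r = r ∧ ∀ v, ρ (f v) = g (ρ v) := by
        intro f
        by_cases h : f ∈ F ∧ Nonempty (tr f ≃g T) ∧ z f = b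
        · obtain ⟨h1, h2, h3⟩ := h
          obtain ⟨πf, hπf⟩ := hz f h2
          have hr : (πf.trans πg.symm) r = r := by
            show πg.symm (πf r) = r
            rw [hπf, h3, ← hgz, ← hπg]
            exact πg.symm_apply_apply r
          refine ⟨(πf.trans πg.symm).toEquiv, fun _ _ _ => ⟨hr, ?_⟩⟩
          exact hRIG V r r f g (hF f h1).1 hg1 (πf.trans πg.symm) hr
        · exact ⟨Equiv.refl V, fun h1 h2 h3 => absurd ⟨h1, h2, h3⟩ h⟩
      choose ρ hρ using hρ0
      have hmaps : (maps r g p K S).Finite := Set.toFinite _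
      have h1 : (hfin.toFinset.filter (fun f => z f = b)).card ≤ hmaps.toFinset.card := by
        apply Finset.card_le_card_of_injOn (fun f => fun x : K => ρ f x)
        · intro f hf
          rw [Finset.mem_coe, Finset.mem_filter, Set.Finite.mem_toFinset] at hf
          obtain ⟨⟨hfF, hfT⟩, hfz⟩ := hf
          obtain ⟨e1, e2⟩ := hρ f hfF hfT hfz
          obtain ⟨f1, f2, f3, f4⟩ := hF f hfF
          rw [Finset.mem_coe, Set.Finite.mem_toFinset]
          refine ⟨?_, ?_, ?_, ?_⟩
          · intro x hx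
            show ρ f x = r
            rw [hx, e1]
          · intro x y hxy
            exact Subtype.ext ((ρ f).injective hxy)
          · intro x y hxy
            show ρ f y = g (ρ f x)
            rw [hxy, ← f2 x x.2, e2]
          · intro x
            show S ≤ dsz g (ρ f x)
            rw [dsz_comm (ρ f) e2]
            exact f3 x x.2
        · intro f hf f' hf' hff
          rw [Finset.mem_coe, Finset.mem_filter, Set.Finite.mem_toFinset] at hf hf'
          obtain ⟨⟨hfF, hfT⟩, hfz⟩ := hf
          obtain ⟨⟨hfF', hfT'⟩, hfz'⟩ := hf'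
          obtain ⟨e1, e2⟩ := hρ f hfF hfT hfz
          obtain ⟨e1', e2'⟩ := hρ f' hfF' hfT' hfz'
          by_contra hne
          obtain ⟨c, hc⟩ := hth f hfF f' hfF' hne
          apply hc
          apply hTHEQ V r f f' K (hF f hfF).1 (hF f' hfF').1 hrK ((ρ f).trans (ρ f').symm)
          · intro v
            show (ρ f').symm (ρ f (f v)) = f' ((ρ f').symm (ρ f v))
            apply (ρ f').injective
            rw [Equiv.apply_symm_apply, e2, e2', Equiv.apply_symm_apply]
          · intro v hv
            show (ρ f').symm (ρ f v) = v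
            apply (ρ f').injective
            rw [Equiv.apply_symm_apply]
            exact congrFun hff ⟨v, hv⟩
      have h2 := hCODE V r g p K S d hg1 hp hrK hpK hd hg4
      have h3 := hHEAVY V r g S hg1 hS
      rw [Set.ncard_eq_toFinset_card _ hmaps] at h2
      refine h1.trans (h2.trans ?_)
      apply Nat.pow_le_pow_right
      · exact Nat.pos_of_ne_zero (pow_ne_zero _ (by omega))
      · exact (Nat.le_div_iff_mul_le hS).mpr h3
  have := Finset.card_le_mul_card_image_of_maps_to (s := hfin.toFinset)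
    (t := (Finset.univ : Finset V)) (f := z) (fun _ _ => Finset.mem_univ _) _ key
  rw [Finset.card_univ, mul_comm] at this
  exact this

end Pool.Agent.Q121.ST
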