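import Pool.Agent.Q267.ST.Stm

/-! # Project ST of helper267: uniform nonvanishing (JOB ST-Cert) -/

set_option autoImplicit false

namespace Pool.Agent.Q121.ST

open Finset PowerSeries
open Pool.Agent.Q267.ST

theorem coeff_pmul {k : Type} [CommRing k] {c : Polynomial k} {A₀ : ℕ} (hc : c.degree < (A₀ : WithBot ℕ))
    (f : PowerSeries k) (n : ℕ) :
    coeff n ((c : PowerSeries k) * f) =
      ∑ m : Fin A₀, c.coeff m * (if (m : ℕ) ≤ n then coeff (n - m) f else 0) := by
  rw [PowerSeries.coeff_mul, Finset.Nat.sum_antidiagonal_eq_sum_range_succ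
    (fun i j => coeff i (c : PowerSeries k) * coeff j f),
    Fin.sum_univ_eq_sum_range (fun m => c.coeff m * (if m ≤ n then coeff (n - m) f else 0))]
  have h1 : ∑ m ∈ range n.succ, coeff m (c : PowerSeries k) * coeff (n - m) f =
      ∑ m ∈ range (n + 1 + A₀), c.coeff m * (if m ≤ n then coeff (n - m) f else 0) := by
    have e : ∑ m ∈ range n.succ, c.coeff m * (if m ≤ n then coeff (n - m) f else 0) =
        ∑ m ∈ range (n + 1 + A₀), c.coeff m * (if m ≤ n then coeff (n - m) f else 0) := by
      apply sum_subset (range_subset_range.2 (by omega))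
      intro m _ hm
      rw [mem_range] at hm
      rw [if_neg (by omega), mul_zero]
    rw [← e]
    refine sum_congr rfl fun m hm => ?_
    rw [mem_range] at hm
    rw [if_pos (by omega), Polynomial.coeff_coe]
  have h2 : ∑ m ∈ range A₀, c.coeff m * (if m ≤ n then coeff (n - m) f else 0) =
      ∑ m ∈ range (n + 1 + A₀), c.coeff m * (if m ≤ n then coeff (n - m) f else 0) := by
    apply sum_subset (range_subset_range.2 (by omega))
    intro m _ hm
    rw [mem_range, not_lt] at hm
    rw [Polynomial.coeff_eq_zero_of_degree_lt (hc.trans_le (by exact_mod_cast hm)), zero_mul]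
  rw [h1, h2]

/-- the rows -/
noncomputable def rw' {A : Type} [CommRing A] {I : Type} (z : I → PowerSeries A) (A₀ n : ℕ) (p : I × Fin A₀) : A :=
  if (p.2 : ℕ) ≤ n then coeff (n - p.2) (z p.1) else 0

theorem coeff_row {A k : Type} [CommRing A] [CommRing k] {I : Type} [Fintype I] (φ : A →+* k)
    (z : I → PowerSeries A) {A₀ : ℕ} {c : I → Polynomial k} (hc : ∀ i, (c i).degree < (A₀ : WithBot ℕ)) (n : ℕ) :
    coeff n (∑ i, (c i : PowerSeries k) * map φ (z i)) =
      ∑ p : I × Fin A₀, (c p.1).coeff p.2 * φ (rw' z A₀ n p) := by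
  rw [map_sum, Fintype.sum_prod_type]
  refine sum_congr rfl fun i _ => ?_
  rw [coeff_pmul (hc i)]
  refine sum_congr rfl fun m _ => ?_
  unfold rw'
  simp only
  split_ifs
  · rw [PowerSeries.coeff_map]
  · rw [map_zero]

/-- the rows span -/
theorem rows_span {A : Type} [CommRing A] [IsDomain A] {I : Type} [Fintype I] (z : I → PowerSeries A)
    (hz : ∀ c : I → Polynomial A, ∑ i, (c i : PowerSeries A) * z i = 0 → c = 0) (A₀ : ℕ) :
    Submodule.span (FractionRing A) (Set.range fun (n : ℕ) (p : I × Fin A₀) =>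
      algebraMap A (FractionRing A) (rw' z A₀ n p)) = ⊤ := by
  classical
  by_contra hcon
  obtain ⟨f, hf0, hf⟩ := Submodule.exists_le_ker_of_lt_top _ (lt_top_iff_ne_top.2 hcon)
  -- the coordinates of `f`
  obtain ⟨b, hb⟩ := IsLocalization.exist_integer_multiples_of_finite (nonZeroDivisors A)
    (fun p : I × Fin A₀ => f (fun j => if p = j then 1 else 0))
  choose x hx using hb
  have hb0 : (b : A) ≠ 0 := nonZeroDivisors.ne_zero b.2
  have hrel : ∀ n, ∑ p : I × Fin A₀, x p * rw' z A₀ n p = 0 := by
    intro n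
    apply FaithfulSMul.algebraMap_injective A (FractionRing A)
    rw [map_zero, map_sum]
    have h1 := hf (Submodule.subset_span ⟨n, rfl⟩)
    rw [LinearMap.mem_ker, LinearMap.pi_apply_eq_sum_univ f] at h1
    have h2 := congrArg (fun y => (b : A) • y) h1
    simp only [smul_sum, smul_zero] at h2
    rw [← h2]
    refine sum_congr rfl fun p _ => ?_
    rw [map_mul, hx p, smul_comm, smul_eq_mul, mul_comm]
  set c : I → Polynomial A := fun i => ((Polynomial.degreeLTEquiv A A₀).symm fun m => x (i, m)).1 with hc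
  have hdeg : ∀ i, (c i).degree < (A₀ : WithBot ℕ) := fun i =>
    Polynomial.mem_degreeLT.1 ((Polynomial.degreeLTEquiv A A₀).symm fun m => x (i, m)).2
  have hcoef : ∀ (i : I) (m : Fin A₀), (c i).coeff m = x (i, m) := by
    intro i m
    have h1 : (Polynomial.degreeLTEquiv A A₀) ((Polynomial.degreeLTEquiv A A₀).symm fun m => x (i, m)) m =
        x (i, m) := by rw [LinearEquiv.apply_symm_apply]
    exact h1
  have h1 : ∑ i, (c i : PowerSeries A) * z i = 0 := by
    ext n
    have h2 := coeff_row (RingHom.id A) z hdeg n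
    simp only [PowerSeries.map_id, id, RingHom.id_apply] at h2
    rw [map_zero]
    refine Eq.trans h2 ?_
    rw [← hrel n]
    exact sum_congr rfl fun p _ => by rw [hcoef]
  have h2 := hz c h1
  apply hf0
  apply LinearMap.ext
  intro v
  rw [LinearMap.pi_apply_eq_sum_univ f, LinearMap.zero_apply]
  apply sum_eq_zero
  intro p _
  have h3 : x p = 0 := by
    rw [← hcoef p.1 p.2, h2]
    exact Polynomial.coeff_zero _
  have h4 := hx p
  rw [h3, map_zero, Algebra.smul_def, eq_comm, mul_eq_zero] at h4
  rcases h4 with h4 | h4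
  · exact absurd ((FaithfulSMul.algebraMap_eq_zero_iff A (FractionRing A)).1 h4) hb0
  · rw [h4, smul_zero]

/-- JOB ST-Cert -/
theorem cert : S_Cert := by
  classical
  intro A _ _ I _ z hz A₀
  have hspan := rows_span z hz A₀
  obtain ⟨b, hb, hb2, hb3⟩ := exists_linearIndependent (FractionRing A) (Set.range fun (n : ℕ) (p : I × Fin A₀) =>
      algebraMap A (FractionRing A) (rw' z A₀ n p))
  rw [hspan] at hb2
  let B : Module.Basis b (FractionRing A) (I × Fin A₀ → FractionRing A) :=
    Module.Basis.mk hb3 (by rw [Subtype.range_coe_subtype, Set.ofPred_mem_eq, hb2])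
  have : Fintype b := Module.Basis.fintypeIndexOfRankLtAleph0 B (Module.rank_lt_aleph0 _ _)
  have hcard : Fintype.card (I × Fin A₀) = Fintype.card b := by
    have h1 := Module.finrank_eq_card_basis B
    rw [Module.finrank_fintype_fun_eq_card] at h1
    exact h1
  let e : I × Fin A₀ ≃ b := Fintype.equivOfCardEq hcard
  have hch : ∀ x : b, ∃ n : ℕ, (fun p : I × Fin A₀ => algebraMap A (FractionRing A) (rw' z A₀ n p)) = x.1 :=
    fun x => hb x.2
  choose ρ hρ using hch
  let W : Matrix (I × Fin A₀) (I × Fin A₀) A := Matrix.of fun p p' => rw' z A₀ (ρ (e p)) p'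
  have hW : (W.map (algebraMap A (FractionRing A))).det ≠ 0 := by
    have h1 : LinearIndependent (FractionRing A) (W.map (algebraMap A (FractionRing A))).row := by
      have h2 : (W.map (algebraMap A (FractionRing A))).row = fun p => ((e p : b) : I × Fin A₀ → FractionRing A) := by
        funext p
        rw [← hρ (e p)]
        rfl
      rw [h2]
      exact hb3.comp e e.injective
    rw [Matrix.linearIndependent_rows_iff_isUnit, Matrix.isUnit_iff_isUnit_det] at h1
    exact h1.ne_zero
  have ha : W.det ≠ 0 := by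
    intro hcon
    apply hW
    have h1 := RingHom.map_det (algebraMap A (FractionRing A)) W
    rw [hcon, map_zero] at h1
    exact h1.symm
  refine ⟨univ.sup (fun p : I × Fin A₀ => ρ (e p)) + 1, W.det, ha, ?_⟩
  intro k _ φ hφ c hc hzero
  have hdet : (W.map φ).det ≠ 0 := by
    have h1 := RingHom.map_det φ W
    intro hcon
    apply hφ
    rw [h1]
    exact hcon
  have hx : (W.map φ).mulVec (fun p => (c p.1).coeff p.2) = 0 := by
    funext p
    have h1 := hzero (ρ (e p)) (Nat.lt_succ_of_le (le_sup (f := fun p : I × Fin A₀ => ρ (e p)) (mem_univ p)))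
    rw [coeff_row φ z hc] at h1
    rw [Matrix.mulVec]
    refine Eq.trans ?_ h1
    refine sum_congr rfl fun p' _ => ?_
    rw [mul_comm]
    rfl
  have hx0 := Matrix.eq_zero_of_mulVec_eq_zero hdet hx
  funext i
  ext m
  by_cases hm : m < A₀
  · exact congrFun hx0 (i, ⟨m, hm⟩)
  · rw [Polynomial.coeff_eq_zero_of_degree_lt ((hc i).trans_le (by exact_mod_cast not_lt.1 hm))]
    rfl

end Pool.Agent.Q121.ST
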