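import Pool.Agent.Q267.ST.Stm

/-! # Project ST of helper267: series whose derivatives lie in a module of finite rank -/

set_option autoImplicit false

namespace Pool.Agent.Q121.ST

open Finset PowerSeries
open Pool.Agent.Q267.ST

variable {A : Type} [CommRing A]

/-- the elements with a nonzero polynomial multiple in `M` -/
def Sat (M : Submodule (Polynomial A) (PowerSeries A)) (g : PowerSeries A) : Prop :=
  ∃ q : Polynomial A, q ≠ 0 ∧ q • g ∈ M

theorem smul_eq (q : Polynomial A) (f : PowerSeries A) : q • f = (q : PowerSeries A) * f := by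
  rw [Algebra.smul_def, PowerSeries.algebraMap_apply']
  congr 1

variable [IsDomain A]

theorem sat_add {M : Submodule (Polynomial A) (PowerSeries A)} {g h : PowerSeries A} (hg : Sat M g) (hh : Sat M h) :
    Sat M (g + h) := by
  obtain ⟨q, hq, h1⟩ := hg
  obtain ⟨r, hr, h2⟩ := hh
  refine ⟨q * r, mul_ne_zero hq hr, ?_⟩
  rw [smul_add]
  have e1 : (q * r) • g = r • (q • g) := by rw [smul_smul, mul_comm]
  have e2 : (q * r) • h = q • (r • h) := by rw [smul_smul]
  rw [e1, e2]
  exact M.add_mem (M.smul_mem _ h1) (M.smul_mem _ h2)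

theorem sat_mem {M : Submodule (Polynomial A) (PowerSeries A)} {g : PowerSeries A} (hg : g ∈ M) : Sat M g :=
  ⟨1, one_ne_zero, by rwa [one_smul]⟩

omit [IsDomain A] in
theorem sat_smul {M : Submodule (Polynomial A) (PowerSeries A)} {g : PowerSeries A} (hg : Sat M g)
    (p : Polynomial A) : Sat M (p • g) := by
  obtain ⟨q, hq, h1⟩ := hg
  refine ⟨q, hq, ?_⟩
  rw [smul_comm]
  exact M.smul_mem _ h1

omit [IsDomain A] in
theorem sat_neg {M : Submodule (Polynomial A) (PowerSeries A)} {g : PowerSeries A} (hg : Sat M g) : Sat M (-g) := by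
  obtain ⟨q, hq, h1⟩ := hg
  exact ⟨q, hq, by rw [smul_neg]; exact M.neg_mem h1⟩

theorem sat_of_smul {M : Submodule (Polynomial A) (PowerSeries A)} {g : PowerSeries A} {q : Polynomial A}
    (hq : q ≠ 0) (h : Sat M (q • g)) : Sat M g := by
  obtain ⟨r, hr, h1⟩ := h
  exact ⟨r * q, mul_ne_zero hr hq, by rwa [mul_smul]⟩

theorem sat_sum {M : Submodule (Polynomial A) (PowerSeries A)} {ι : Type} (s : Finset ι) (g : ι → PowerSeries A)
    (h : ∀ i ∈ s, Sat M (g i)) : Sat M (∑ i ∈ s, g i) := by
  classical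
  induction s using Finset.induction_on with
  | empty => rw [sum_empty]; exact sat_mem M.zero_mem
  | insert i s hi ih =>
    rw [sum_insert hi]
    exact sat_add (h i (mem_insert_self i s)) (ih fun j hj => h j (mem_insert_of_mem hj))

omit [IsDomain A] in
theorem sat_mono {M M' : Submodule (Polynomial A) (PowerSeries A)} (h : M ≤ M') {g : PowerSeries A} (hg : Sat M g) :
    Sat M' g := by
  obtain ⟨q, hq, h1⟩ := hg
  exact ⟨q, hq, h h1⟩

omit [IsDomain A] in
theorem d_smul (q : Polynomial A) (f : PowerSeries A) :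
    d⁄dX A (q • f) = Polynomial.derivative q • f + q • d⁄dX A f := by
  rw [smul_eq, smul_eq, smul_eq, Derivation.leibniz, PowerSeries.derivative_coe, smul_eq_mul, smul_eq_mul]
  ring

/-- the saturation is closed under the derivative if the derivatives of generators are in it -/
theorem sat_d {s : Set (PowerSeries A)} (hs : ∀ x ∈ s, Sat (Submodule.span (Polynomial A) s) (d⁄dX A x))
    {g : PowerSeries A} (hg : Sat (Submodule.span (Polynomial A) s) g) :
    Sat (Submodule.span (Polynomial A) s) (d⁄dX A g) := by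
  have key : ∀ x ∈ Submodule.span (Polynomial A) s, Sat (Submodule.span (Polynomial A) s) (d⁄dX A x) := by
    intro x hx
    induction hx using Submodule.span_induction with
    | mem x h => exact hs x h
    | zero => rw [map_zero]; exact sat_mem (Submodule.zero_mem _)
    | add x y _ _ h1 h2 => rw [map_add]; exact sat_add h1 h2
    | smul a x hx h1 =>
      rw [d_smul]
      exact sat_add (sat_smul (sat_mem hx) _) (sat_smul h1 _)
  obtain ⟨q, hq, h1⟩ := hg
  have h2 := key _ h1
  rw [d_smul] at h2
  apply sat_of_smul hq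
  have e : q • d⁄dX A g = (Polynomial.derivative q • g + q • d⁄dX A g) + -(Polynomial.derivative q • g) := by ring
  rw [e]
  exact sat_add h2 (sat_neg (sat_smul ⟨q, hq, h1⟩ _))

omit [IsDomain A] in
theorem dfin_iff {f : PowerSeries A} : DFin f ↔
    ∃ M : Submodule (Polynomial A) (PowerSeries A), M.FG ∧ ∀ n, Sat M ((d⁄dX A)^[n] f) := by
  constructor
  · rintro ⟨N, w, h⟩
    refine ⟨Submodule.span (Polynomial A) (Set.range w), Submodule.fg_span (Set.finite_range w), fun n => ?_⟩
    obtain ⟨q, c, hq, h1⟩ := h n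
    refine ⟨q, hq, ?_⟩
    rw [smul_eq, h1]
    refine Submodule.sum_mem _ fun i _ => ?_
    rw [← smul_eq]
    exact Submodule.smul_mem _ _ (Submodule.subset_span ⟨i, rfl⟩)
  · rintro ⟨M, hM, h⟩
    obtain ⟨N, w, hw⟩ := Submodule.fg_iff_exists_fin_generating_family.1 hM
    refine ⟨N, w, fun n => ?_⟩
    obtain ⟨q, hq, h1⟩ := h n
    rw [← hw, Submodule.mem_span_range_iff_exists_fun] at h1
    obtain ⟨c, hc⟩ := h1
    refine ⟨q, c, hq, ?_⟩
    rw [← smul_eq, ← hc]
    exact sum_congr rfl fun i _ => smul_eq _ _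

/-- JOB ST-DF (sums) -/
theorem dfAdd : S_DFadd := by
  intro A _ _ f g hf hg
  rw [dfin_iff] at hf hg ⊢
  obtain ⟨M, hM, h1⟩ := hf
  obtain ⟨M', hM', h2⟩ := hg
  refine ⟨M ⊔ M', hM.sup hM', fun n => ?_⟩
  have e : (d⁄dX A)^[n] (f + g) = (d⁄dX A)^[n] f + (d⁄dX A)^[n] g := by
    induction n with
    | zero => rfl
    | succ n ih => rw [Function.iterate_succ_apply', ih, map_add, Function.iterate_succ_apply',
        Function.iterate_succ_apply']
  rw [e]
  exact sat_add (sat_mono le_sup_left (h1 n)) (sat_mono le_sup_right (h2 n))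

/-- JOB ST-DF (products) -/
theorem dfMul : S_DFmul := by
  intro A _ _ f g hf hg
  rw [dfin_iff] at hf hg ⊢
  obtain ⟨M, hM, h1⟩ := hf
  obtain ⟨M', hM', h2⟩ := hg
  refine ⟨M * M', hM.mul hM', ?_⟩
  have key : ∀ n i j : ℕ, Sat (M * M') ((d⁄dX A)^[n] ((d⁄dX A)^[i] f * (d⁄dX A)^[j] g)) := by
    intro n
    induction n with
    | zero =>
      intro i j
      obtain ⟨q, hq, h3⟩ := h1 i
      obtain ⟨r, hr, h4⟩ := h2 j
      refine ⟨q * r, mul_ne_zero hq hr, ?_⟩
      rw [Function.iterate_zero_apply, ← smul_mul_smul_comm]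
      exact Submodule.mul_mem_mul h3 h4
    | succ n ih =>
      intro i j
      rw [Function.iterate_succ_apply, Derivation.leibniz, smul_eq_mul, smul_eq_mul]
      have e : ∀ (n : ℕ) (x y : PowerSeries A), (d⁄dX A)^[n] (x + y) = (d⁄dX A)^[n] x + (d⁄dX A)^[n] y := by
        intro n x y
        induction n with
        | zero => rfl
        | succ n ih => rw [Function.iterate_succ_apply', ih, map_add, Function.iterate_succ_apply',
            Function.iterate_succ_apply']
      rw [e]
      have h3 := ih i (j + 1)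
      have h4 := ih (i + 1) j
      rw [Function.iterate_succ_apply'] at h3 h4
      rw [mul_comm ((d⁄dX A)^[j] g)]
      exact sat_add h3 h4
  intro n
  exact key n 0 0

/-- JOB ST-DF (polynomials) -/
theorem dfPoly : S_DFpoly := by
  intro A _ _ f
  rw [dfin_iff]
  refine ⟨Submodule.span (Polynomial A) {1}, Submodule.fg_span_singleton 1, fun n => ?_⟩
  have e : (d⁄dX A)^[n] (f : PowerSeries A) = ((Polynomial.derivative^[n] f : Polynomial A) : PowerSeries A) := by
    induction n with
    | zero => rfl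
    | succ n ih => rw [Function.iterate_succ_apply', ih, PowerSeries.derivative_coe, Function.iterate_succ_apply']
  apply sat_mem
  rw [e, Submodule.mem_span_singleton]
  exact ⟨Polynomial.derivative^[n] f, by rw [smul_eq, mul_one]⟩

/-- JOB ST-ODE (from an equation) -/
theorem dfOfODE : S_DFofODE := by
  intro A _ _ f hf
  obtain ⟨r, c, hc, h⟩ := hf
  rw [dfin_iff]
  set s : Set (PowerSeries A) := (fun l : ℕ => (d⁄dX A)^[l] f) '' (Set.Iio r) with hs
  have hfin : s.Finite := (Set.finite_Iio r).image _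
  have hr : Sat (Submodule.span (Polynomial A) s) ((d⁄dX A)^[r] f) := by
    refine ⟨c r, hc, ?_⟩
    rw [sum_range_succ] at h
    have e : c r • (d⁄dX A)^[r] f = -∑ l ∈ range r, (c l : PowerSeries A) * (d⁄dX A)^[l] f := by
      rw [smul_eq]
      exact eq_neg_of_add_eq_zero_right h
    rw [e]
    refine Submodule.neg_mem _ (Submodule.sum_mem _ fun l hl => ?_)
    rw [← smul_eq]
    exact Submodule.smul_mem _ _ (Submodule.subset_span ⟨l, by rw [mem_range] at hl; exact hl, rfl⟩)
  have hgen : ∀ l ≤ r, Sat (Submodule.span (Polynomial A) s) ((d⁄dX A)^[l] f) := by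
    intro l hl
    rcases hl.lt_or_eq with hlt | rfl
    · exact sat_mem (Submodule.subset_span ⟨l, hlt, rfl⟩)
    · exact hr
  have hd : ∀ x ∈ s, Sat (Submodule.span (Polynomial A) s) (d⁄dX A x) := by
    rintro x ⟨l, hl, rfl⟩
    have := hgen (l + 1) hl
    rw [Function.iterate_succ_apply'] at this
    exact this
  refine ⟨Submodule.span (Polynomial A) s, Submodule.fg_span hfin, fun n => ?_⟩
  induction n with
  | zero => exact hgen 0 (Nat.zero_le _)
  | succ n ih =>
    rw [Function.iterate_succ_apply']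
    exact sat_d hd ih

/-- JOB ST-ODE (to an equation) -/
theorem dfToODE : S_DFtoODE := by
  classical
  intro A _ _ f hf
  obtain ⟨N, w, h⟩ := hf
  choose q c hq h using h
  -- a linear relation
  set L : (Fin (N + 1) → Polynomial A) →ₗ[Polynomial A] (Fin N → Polynomial A) :=
    Matrix.mulVecLin (Matrix.of fun (i : Fin N) (n : Fin (N + 1)) => c n i) with hL
  obtain ⟨d, hd, hd0⟩ : ∃ d, L d = 0 ∧ d ≠ 0 := by
    by_contra hcon
    push Not at hcon
    have hinj : Function.Injective L := (injective_iff_map_eq_zero L).2 hcon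
    have := le_of_fin_injective (Polynomial A) L hinj
    omega
  have hd' : ∀ i : Fin N, ∑ n : Fin (N + 1), c n i * d n = 0 := by
    intro i
    have := congrFun hd i
    rw [hL, Matrix.mulVecLin_apply, Matrix.mulVec] at this
    exact this
  -- the relation between the derivatives
  have hrel : ∑ n : Fin (N + 1), ((d n * q n : Polynomial A) : PowerSeries A) * (d⁄dX A)^[n] f = 0 := by
    have e : ∀ n : Fin (N + 1), ((d n * q n : Polynomial A) : PowerSeries A) * (d⁄dX A)^[n] f =
        ∑ i, ((c n i * d n : Polynomial A) : PowerSeries A) * w i := by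
      intro n
      rw [Polynomial.coe_mul, mul_assoc, h n, mul_sum]
      refine sum_congr rfl fun i _ => ?_
      rw [Polynomial.coe_mul]
      ring
    simp only [e]
    rw [sum_comm]
    apply sum_eq_zero
    intro i _
    rw [← sum_mul]
    have e2 : ∑ n : Fin (N + 1), ((c n i * d n : Polynomial A) : PowerSeries A) =
        ((∑ n : Fin (N + 1), c n i * d n : Polynomial A) : PowerSeries A) := by
      rw [← Polynomial.coeToPowerSeries.ringHom_apply, map_sum]
      rfl
    rw [e2, hd' i, Polynomial.coe_zero, zero_mul]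
  -- the last nonzero coefficient
  set C : ℕ → Polynomial A := fun n => if hn : n < N + 1 then d ⟨n, hn⟩ * q n else 0 with hC
  have hC1 : ∀ n : Fin (N + 1), C n = d n * q n := by
    intro n
    simp only [hC]
    rw [dif_pos n.2]
  have hex : ∃ n, n < N + 1 ∧ C n ≠ 0 := by
    by_contra hcon
    push Not at hcon
    apply hd0
    funext n
    have := hcon n n.2
    rw [hC1, mul_eq_zero] at this
    exact this.resolve_right (hq n)
  obtain ⟨r, ⟨hr1, hr2⟩, hr3⟩ : ∃ r, (r < N + 1 ∧ C r ≠ 0) ∧ ∀ n, r < n → n < N + 1 → C n = 0 := by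
    obtain ⟨n₀, hn₀⟩ := hex
    have hne : ((range (N + 1)).filter fun n => C n ≠ 0).Nonempty :=
      ⟨n₀, mem_filter.2 ⟨mem_range.2 hn₀.1, hn₀.2⟩⟩
    refine ⟨((range (N + 1)).filter fun n => C n ≠ 0).max' hne, ?_, fun n hn hnN => ?_⟩
    · have := max'_mem _ hne
      rw [mem_filter, mem_range] at this
      exact this
    · by_contra hcon
      have hm : n ∈ (range (N + 1)).filter fun n => C n ≠ 0 := mem_filter.2 ⟨mem_range.2 hnN, hcon⟩
      exact absurd hn (not_lt.2 (le_max' _ n hm))
  refine ⟨r, C, hr2, ?_⟩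
  have e : ∑ n ∈ range (N + 1), (C n : PowerSeries A) * (d⁄dX A)^[n] f = 0 := by
    rw [← hrel, ← Fin.sum_univ_eq_sum_range (fun n => (C n : PowerSeries A) * (d⁄dX A)^[n] f)]
    exact sum_congr rfl fun n _ => by rw [hC1]
  rw [← e]
  apply sum_subset (range_subset_range.2 (by omega))
  intro n hn1 hn2
  rw [mem_range] at hn1 hn2
  rw [hr3 n (by omega) hn1, Polynomial.coe_zero, zero_mul]

end Pool.Agent.Q121.ST
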