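import Pool.Agent.Q267.ST.Stm

/-! # Project ST of helper267: the extraction of a coefficient (JOB ST-LipExt) -/

set_option autoImplicit false

namespace Pool.Agent.Q121.ST

open Finset PowerSeries
open Pool.Agent.Q267.ST

/-- JOB ST-LipExt -/
theorem lipExt : S_LipExt := by
  classical
  intro ι A _ _ _ _ _ F M lam hex h
  -- the minimal exponent
  set S : Finset (ι → ℕ) := (Fintype.piFinset fun _ : ι => range M).filter fun c =>
    ∃ a ∈ range M, ∃ b ∈ range M, lam a b c ≠ 0 with hS
  have hSne : S.Nonempty := by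
    obtain ⟨a, ha, b, hb, c, hc, hl⟩ := hex
    exact ⟨c, mem_filter.2 ⟨hc, a, ha, b, hb, hl⟩⟩
  obtain ⟨α, hα, hmin⟩ := exists_min_image S (fun c => ∑ i, c i) hSne
  rw [hS, mem_filter] at hα
  obtain ⟨hαM, a₀, ha₀, b₀, hb₀, hl₀⟩ := hα
  have hzero : ∀ c ∈ Fintype.piFinset (fun _ : ι => range M), c ≤ α → c ≠ α → ∀ a ∈ range M, ∀ b ∈ range M,
      lam a b c = 0 := by
    intro c hc hle hne a ha b hb
    by_contra hcon
    have h1 := hmin c (mem_filter.2 ⟨hc, a, ha, b, hb, hcon⟩)
    have h2 : ∑ i, c i < ∑ i, α i := by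
      apply sum_lt_sum (fun i _ => hle i)
      by_contra h3
      push Not at h3
      exact hne (le_antisymm hle fun i => h3 i (mem_univ i))
    omega
  -- the constant
  set κ : A := ∏ i, ∏ j ∈ range (α i), (((-1 - (α i : ℤ)) + j + 1 : ℤ) : A) with hκ
  have hκ0 : κ ≠ 0 := by
    rw [hκ, prod_ne_zero_iff]
    intro i _
    rw [prod_ne_zero_iff]
    intro j hj
    rw [mem_range] at hj
    have : ((-1 - (α i : ℤ)) + j + 1 : ℤ) ≠ 0 := by omega
    exact_mod_cast this
  set u : ι → ℤ := fun i => -1 - (α i : ℤ) with hu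
  have hprod : ∀ c : ι → ℕ, ¬ c ≤ α → ∏ i, ∏ j ∈ range (c i), ((u i + j + 1 : ℤ) : A) = 0 := by
    intro c hc
    rw [Pi.le_def] at hc
    push Not at hc
    obtain ⟨i, hi⟩ := hc
    apply prod_eq_zero (mem_univ i)
    apply prod_eq_zero (mem_range.2 hi)
    rw [hu]
    push_cast
    ring
  -- the coefficients
  set C' : ℕ → Polynomial A := fun b => ∑ a ∈ range M, Polynomial.monomial a (lam a b α * κ) with hC
  have hcoe : ∀ b, ((C' b : Polynomial A) : PowerSeries A) =
      ∑ a ∈ range M, PowerSeries.C (lam a b α * κ) * PowerSeries.X ^ a := by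
    intro b
    rw [hC, ← Polynomial.coeToPowerSeries.ringHom_apply, map_sum]
    refine sum_congr rfl fun a _ => ?_
    rw [Polynomial.coeToPowerSeries.ringHom_apply, ← Polynomial.C_mul_X_pow_eq_monomial, Polynomial.coe_mul,
      Polynomial.coe_C, Polynomial.coe_pow, Polynomial.coe_X]
  have hrel : ∑ b ∈ range M, (C' b : PowerSeries A) * (d⁄dX A)^[b] (F fun _ => -1) = 0 := by
    have h1 := h u
    have e : ∀ a ∈ range M, ∀ b ∈ range M, (∑ c ∈ Fintype.piFinset (fun _ : ι => range M),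
        PowerSeries.C (lam a b c * ∏ i, ∏ j ∈ range (c i), ((u i + j + 1 : ℤ) : A)) *
          PowerSeries.X ^ a * (d⁄dX A)^[b] (F (fun i => u i + (c i : ℤ)))) =
        PowerSeries.C (lam a b α * κ) * PowerSeries.X ^ a * (d⁄dX A)^[b] (F fun _ => -1) := by
      intro a ha b hb
      rw [sum_eq_single_of_mem α hαM]
      · congr 3
        funext i
        rw [hu]
        ring
      · intro c hc hne
        by_cases hle : c ≤ α
        · rw [hzero c hc hle hne a ha b hb, zero_mul, map_zero, zero_mul, zero_mul]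
        · rw [hprod c hle, mul_zero, map_zero, zero_mul, zero_mul]
    rw [sum_congr rfl fun a ha => sum_congr rfl fun b hb => e a ha b hb, sum_comm] at h1
    rw [← h1]
    refine sum_congr rfl fun b _ => ?_
    rw [hcoe, sum_mul]
  have hne0 : C' b₀ ≠ 0 := by
    intro hcon
    have h1 : (C' b₀).coeff a₀ = lam a₀ b₀ α * κ := by
      rw [hC]
      simp only [Polynomial.finsetSum_coeff, Polynomial.coeff_monomial]
      rw [sum_ite_eq' (range M) a₀, if_pos ha₀]
    rw [hcon, Polynomial.coeff_zero] at h1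
    exact mul_ne_zero hl₀ hκ0 h1.symm
  obtain ⟨r, ⟨hr1, hr2⟩, hr3⟩ : ∃ r, (r < M ∧ C' r ≠ 0) ∧ ∀ n, r < n → n < M → C' n = 0 := by
    have hne : ((range M).filter fun n => C' n ≠ 0).Nonempty := ⟨b₀, mem_filter.2 ⟨hb₀, hne0⟩⟩
    refine ⟨((range M).filter fun n => C' n ≠ 0).max' hne, ?_, fun n hn hnN => ?_⟩
    · have := max'_mem _ hne
      rw [mem_filter, mem_range] at this
      exact this
    · by_contra hcon
      have hm : n ∈ (range M).filter fun n => C' n ≠ 0 := mem_filter.2 ⟨mem_range.2 hnN, hcon⟩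
      exact absurd hn (not_lt.2 (le_max' _ n hm))
  refine ⟨r, C', hr2, ?_⟩
  rw [← hrel]
  apply sum_subset (range_subset_range.2 (by omega))
  intro n hn1 hn2
  rw [mem_range] at hn1 hn2
  rw [hr3 n (by omega) hn1, Polynomial.coe_zero, zero_mul]

end Pool.Agent.Q121.ST
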