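import Pool.Agent.Q164.ST.Stm

set_option autoImplicit false

/-! Project ST (MP_b146e7_co): JOB FPAR (helper121) -/

namespace Pool.Agent.Q121.ST

open Pool.Agent.Q164.ST

section

variable {V : Type} {r : V} {f : V → V} {h : V → ℕ} {I : Finset V} {K : Set V} {κ : V → V}
  {lo hi q : V → V} {W : Finset V}

theorem fY_hi {Y : Set V} {u : V} (hu : u ∈ I) (hY : u ∈ Y) : fY f I lo hi q W Y u = hi u := by
  unfold fY
  rw [if_pos hu, if_pos hY]

theorem fY_lo {Y : Set V} {u : V} (hu : u ∈ I) (hY : u ∉ Y) : fY f I lo hi q W Y u = lo u := by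
  unfold fY
  rw [if_pos hu, if_neg hY]

theorem fY_q (G : Good r f h I K κ lo hi q W) {Y : Set V} {u : V} (hu : u ∈ W) (hY : u ∈ Y) :
    fY f I lo hi q W Y (q u) = u := by
  unfold fY
  rw [if_neg (G.WqI u hu)]
  have hex : ∃ u', u' ∈ W ∧ u' ∈ Y ∧ q u' = q u := ⟨u, hu, hY, rfl⟩
  rw [dif_pos hex]
  exact G.Winj _ hex.choose_spec.1 _ hu hex.choose_spec.2.2

theorem fY_f {Y : Set V} {y : V} (hy : y ∉ I) (hn : ∀ u ∈ W, u ∈ Y → q u ≠ y) :
    fY f I lo hi q W Y y = f y := by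
  unfold fY
  rw [if_neg hy, dif_neg]
  rintro ⟨u, h1, h2, h3⟩
  exact hn u h1 h2 h3

theorem fY_I (G : Good r f h I K κ lo hi q W) {Y : Set V} {u : V} (hu : u ∈ I) :
    fY f I lo hi q W Y u ∉ I ∧ ∀ v ∈ W, q v ≠ fY f I lo hi q W Y u := by
  by_cases hY : u ∈ Y
  · rw [fY_hi hu hY]
    exact ⟨G.hiI u hu, fun v hv => (G.Wne v hv u hu).2⟩
  · rw [fY_lo hu hY]
    exact ⟨G.loI u hu, fun v hv => (G.Wne v hv u hu).1⟩

theorem fY_par (G : Good r f h I K κ lo hi q W) (Y : Set V) : IsPar r (fY f I lo hi q W Y) := by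
  classical
  have hrI : r ∉ I := G.KI r G.rK
  have hrq : ∀ u ∈ W, u ∈ Y → q u ≠ r := fun u hu _ hh => G.WqK u hu (hh ▸ G.rK)
  refine ⟨by rw [fY_f hrI hrq, G.fr], fun y => if y ∈ I then 3 * h (fY f I lo hi q W Y y) + 1 else
    if ∃ u, u ∈ W ∧ u ∈ Y ∧ q u = y then 3 * h y + 2 else 3 * h y, ?_⟩
  intro v hv
  simp only
  by_cases hvI : v ∈ I
  · obtain ⟨h1, h2⟩ := fY_I G (Y := Y) hvI
    rw [if_neg h1, if_neg (by rintro ⟨u, k1, k2, k3⟩; exact h2 u k1 k3), if_pos hvI]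
    omega
  · rw [if_neg hvI]
    by_cases hq : ∃ u, u ∈ W ∧ u ∈ Y ∧ q u = v
    · rw [if_pos hq]
      obtain ⟨u, k1, k2, rfl⟩ := hq
      rw [fY_q G k1 k2, if_pos (G.WI k1), fY_hi (G.WI k1) k2, G.Wqh u k1]
      omega
    · rw [if_neg hq]
      have e1 : fY f I lo hi q W Y v = f v :=
        fY_f hvI (fun u k1 k2 k3 => hq ⟨u, k1, k2, k3⟩)
      rw [e1, if_neg (G.fI v), G.hs v hv]
      split_ifs <;> omega

theorem fY_K (G : Good r f h I K κ lo hi q W) (Y : Set V) {v : V} (hv : v ∈ K) :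
    fY f I lo hi q W Y v = f v :=
  fY_f (G.KI v hv) (fun u hu _ hh => G.WqK u hu (hh ▸ hv))

theorem fY_cl (G : Good r f h I K κ lo hi q W) (Y : Set V) (v : V) (hv : v ∉ I) :
    cl K (fY f I lo hi q W Y) v = κ v := by
  have hp := fY_par G Y
  obtain ⟨-, μ, hμ⟩ := fY_par G Y
  suffices H : ∀ n : ℕ, ∀ v, μ v ≤ n → v ∉ I → cl K (fY f I lo hi q W Y) v = κ v from
    H _ v le_rfl hv
  intro n
  induction n using Nat.strong_induction_on with
  | _ n ih =>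
    intro v hn hv
    by_cases hK : v ∈ K
    · rw [cl_of_mem _ hK, G.kk v hK]
    · rw [cl_of_not_mem hp G.rK hK]
      have hvr : v ≠ r := fun hh => hK (hh ▸ G.rK)
      have h1 := hμ v hvr
      by_cases hq : ∃ u, u ∈ W ∧ u ∈ Y ∧ q u = v
      · obtain ⟨u, k1, k2, rfl⟩ := hq
        rw [fY_q G k1 k2] at h1 ⊢
        have huI := G.WI k1
        have huK : u ∉ K := fun hh => G.KI u hh huI
        have hur : u ≠ r := fun hh => huK (hh ▸ G.rK)
        have h2 := hμ u hur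
        rw [cl_of_not_mem hp G.rK huK]
        rw [fY_hi huI k2] at h2 ⊢
        rw [ih _ (lt_of_lt_of_le (h2.trans h1) hn) _ le_rfl (G.hiI u huI), G.Wqk u k1]
      · have e1 : fY f I lo hi q W Y v = f v :=
          fY_f hv (fun u k1 k2 k3 => hq ⟨u, k1, k2, k3⟩)
        rw [e1] at h1 ⊢
        rw [ih _ (lt_of_lt_of_le h1 hn) _ le_rfl (G.fI v), G.kf v hK hv]

theorem fY_clI (G : Good r f h I K κ lo hi q W) (Y : Set V) (u : V) (hu : u ∈ I) :
    cl K (fY f I lo hi q W Y) u = κ (fY f I lo hi q W Y u) := by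
  have huK : u ∉ K := fun hh => G.KI u hh hu
  rw [cl_of_not_mem (fY_par G Y) G.rK huK, fY_cl G Y _ (fY_I G hu).1]

theorem reach_κ (G : Good r f h I K κ lo hi q W) {v : V} (hv : v ∈ K) (k : ℕ) :
    ∀ y, y ∉ I → f^[k] y = v → ∃ m : ℕ, f^[m] (κ y) = v := by
  induction k with
  | zero =>
    intro y _ h1
    have : y = v := h1
    rw [this, G.kk v hv]
    exact ⟨0, rfl⟩
  | succ k ih =>
    intro y hy h1
    by_cases hK : y ∈ K
    · rw [G.kk y hK]
      exact ⟨k + 1, h1⟩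
    · rw [G.kf y hK hy]
      exact ih (f y) (G.fI y) h1

theorem iter_K (G : Good r f h I K κ lo hi q W) (Y : Set V) (m : ℕ) :
    ∀ y ∈ K, (fY f I lo hi q W Y)^[m] y = f^[m] y := by
  induction m with
  | zero => intro y _; rfl
  | succ m ih =>
    intro y hy
    rw [Function.iterate_succ_apply, Function.iterate_succ_apply, fY_K G Y hy,
      ih _ (G.fK y hy)]

end

theorem task_FPAR : S_FPAR := by
  intro V _ r f h I K κ lo hi q W G Y
  refine ⟨fY_par G Y, fun v hv => fY_K G Y hv, fY_cl G Y, fY_clI G Y, ?_⟩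
  intro v hv
  unfold dsz
  apply Set.ncard_le_ncard _ (Set.toFinite _)
  rintro y ⟨hy, k, hk⟩
  obtain ⟨m, hm⟩ := reach_κ G hv k y hy hk
  have e1 : cl K (fY f I lo hi q W Y) y = κ y := fY_cl G Y y hy
  refine ⟨m + sInf {k : ℕ | (fY f I lo hi q W Y)^[k] y ∈ K}, ?_⟩
  rw [Function.iterate_add_apply]
  have e2 : (fY f I lo hi q W Y)^[sInf {k : ℕ | (fY f I lo hi q W Y)^[k] y ∈ K}] y = κ y := e1
  rw [e2, iter_K G Y m _ (G.kK y hy)]
  exact hm

end Pool.Agent.Q121.ST
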