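import Pool.Agent.Q121.ST.FPAR

set_option autoImplicit false

/-! Project ST (MP_b146e7_co): JOB MONO (helper121) -/

namespace Pool.Agent.Q121.ST

open Pool.Agent.Q164.ST

section

variable {V : Type} {r : V} {f : V → V} {h : V → ℕ} {I : Finset V} {K : Set V} {κ : V → V}
  {lo hi q : V → V} {W : Finset V}

theorem rI (G : Good r f h I K κ lo hi q W) {u : V} (hu : u ∈ I) : u ≠ r :=
  fun hh => G.KI r G.rK (hh ▸ hu)

theorem D_f (G : Good r f h I K κ lo hi q W) (Y : Set V) {y : V} (hyr : y ≠ r) (hy : y ∉ I)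
    (hn : ∀ u ∈ W, u ∈ Y → q u ≠ y) :
    dep r (fY f I lo hi q W Y) y = dep r (fY f I lo hi q W Y) (f y) + 1 := by
  rw [dep_succ (fY_par G Y) hyr, fY_f hy hn]

theorem D_I (G : Good r f h I K κ lo hi q W) (Y : Set V) {u : V} (hu : u ∈ I) :
    dep r (fY f I lo hi q W Y) u = dep r (fY f I lo hi q W Y) (fY f I lo hi q W Y u) + 1 :=
  dep_succ (fY_par G Y) (rI G hu)

theorem qr (G : Good r f h I K κ lo hi q W) {u : V} (hu : u ∈ W) : q u ≠ r :=
  fun hh => G.WqK u hu (hh ▸ G.rK)

theorem D_q (G : Good r f h I K κ lo hi q W) (Y : Set V) {u : V} (hu : u ∈ W) (hY : u ∈ Y) :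
    dep r (fY f I lo hi q W Y) (q u) = dep r (fY f I lo hi q W Y) (hi u) + 2 := by
  rw [dep_succ (fY_par G Y) (qr G hu), fY_q G hu hY, D_I G Y (G.WI hu), fY_hi (G.WI hu) hY]

theorem D_K (G : Good r f h I K κ lo hi q W) (Y : Set V) {y : V} (hy : y ∈ K) :
    dep r (fY f I lo hi q W Y) y = h y := by
  suffices H : ∀ n : ℕ, ∀ y, h y ≤ n → y ∈ K → dep r (fY f I lo hi q W Y) y = h y from
    H _ y le_rfl hy
  intro n
  induction n with
  | zero =>
    intro y hn hy
    by_cases hyr : y = r
    · rw [hyr, dep_root, G.h0]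
    · have := G.hs y hyr
      omega
  | succ n ih =>
    intro y hn hy
    by_cases hyr : y = r
    · rw [hyr, dep_root, G.h0]
    · have h1 := G.hs y hyr
      rw [D_f G Y hyr (G.KI y hy) (fun u hu _ hh => G.WqK u hu (hh ▸ hy)),
        ih (f y) (by omega) (G.fK y hy), h1]

/-- (1) -/
theorem D_ge (G : Good r f h I K κ lo hi q W) (Y : Set V) {y : V} (hy : y ∉ I) :
    h y ≤ dep r (fY f I lo hi q W Y) y := by
  suffices H : ∀ n : ℕ, ∀ y, h y = n → y ∉ I → h y ≤ dep r (fY f I lo hi q W Y) y from
    H _ y rfl hy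
  intro n
  induction n using Nat.strong_induction_on with
  | _ n ih =>
    have aux : ∀ y, h y = n → y ∉ I → (∀ u ∈ W, u ∈ Y → q u ≠ y) →
        h y ≤ dep r (fY f I lo hi q W Y) y := by
      intro y hn hy hq
      by_cases hyr : y = r
      · rw [hyr, G.h0]; exact Nat.zero_le _
      · have h1 := G.hs y hyr
        rw [D_f G Y hyr hy hq]
        have := ih (h (f y)) (by omega) (f y) rfl (G.fI y)
        omega
    intro y hn hy
    by_cases hq : ∀ u ∈ W, u ∈ Y → q u ≠ y
    · exact aux y hn hy hq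
    · push Not at hq
      obtain ⟨u, hu, hY, rfl⟩ := hq
      rw [D_q G Y hu hY, G.Wqh u hu]
      have := aux (hi u) (by rw [← G.Wqh u hu]; exact hn) (G.hiI u (G.WI hu))
        (fun v hv _ => (G.Wne v hv u (G.WI hu)).2)
      omega

/-- (2) -/
theorem D_eq (G : Good r f h I K κ lo hi q W) (Y : Set V) {c : V} {y : V} (hy : y ∉ I)
    (hc : κ y = c) (hn : ∀ u ∈ W, u ∈ Y → q u ≠ y)
    (hh : ∀ u ∈ W, u ∈ Y → κ (hi u) = c → h y ≤ h (hi u)) :
    dep r (fY f I lo hi q W Y) y = h y := by
  suffices H : ∀ n : ℕ, ∀ y, h y ≤ n → y ∉ I → κ y = c → (∀ u ∈ W, u ∈ Y → q u ≠ y) →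
      (∀ u ∈ W, u ∈ Y → κ (hi u) = c → h y ≤ h (hi u)) →
      dep r (fY f I lo hi q W Y) y = h y from H _ y le_rfl hy hc hn hh
  intro n
  induction n with
  | zero =>
    intro y hn0 hy hc hn hh
    by_cases hyr : y = r
    · rw [hyr, dep_root, G.h0]
    · have := G.hs y hyr
      omega
  | succ n ih =>
    intro y hn0 hy hc hn hh
    by_cases hyK : y ∈ K
    · exact D_K G Y hyK
    · have hyr : y ≠ r := fun e => hyK (e ▸ G.rK)
      have h1 := G.hs y hyr
      have hc' : κ (f y) = c := by rw [← G.kf y hyK hy]; exact hc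
      rw [D_f G Y hyr hy hn, ih (f y) (by omega) (G.fI y) hc' ?_ ?_, h1]
      · intro u hu hY e
        have e1 : κ (hi u) = c := by rw [← G.Wqk u hu, e]; exact hc'
        have e2 := hh u hu hY e1
        have e3 := G.Wqh u hu
        rw [e] at e3
        omega
      · intro u hu hY e1
        have := hh u hu hY e1
        omega

end

theorem task_MONO : S_FPAR → S_MONO := by
  classical
  intro _ V _ r f h I K κ lo hi q W G U J hUI hWU hJK hUJ hty c hcJ Y Y' hYU hYU' hmon hlev hex
  set g := fY f I lo hi q W Y with hg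
  set g' := fY f I lo hi q W Y' with hg'
  -- (3)
  have h3 : ∀ y, y ∉ I → κ y = c → dep r g y ≤ dep r g' y := by
    intro y hy hc
    suffices H : ∀ n : ℕ, ∀ y, h y = n → y ∉ I → κ y = c → dep r g y ≤ dep r g' y from
      H _ y rfl hy hc
    intro n
    induction n using Nat.strong_induction_on with
    | _ n ih =>
      have aux : ∀ y, h y = n → y ∉ I → κ y = c → (∀ u ∈ W, u ∈ Y → q u ≠ y) →
          (∀ u ∈ W, u ∈ Y' → q u ≠ y) → dep r g y ≤ dep r g' y := by
        intro y hn hy hc hq hq'
        by_cases hyK : y ∈ K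
        · rw [hg, hg', D_K G Y hyK, D_K G Y' hyK]
        · have hyr : y ≠ r := fun e => hyK (e ▸ G.rK)
          have h1 := G.hs y hyr
          have hc' : κ (f y) = c := by rw [← G.kf y hyK hy]; exact hc
          rw [hg, hg', D_f G Y hyr hy hq, D_f G Y' hyr hy hq', ← hg, ← hg']
          have := ih (h (f y)) (by omega) (f y) rfl (G.fI y) hc'
          omega
      intro y hn hy hc
      by_cases hq : ∀ u ∈ W, u ∈ Y → q u ≠ y
      · by_cases hq' : ∀ u ∈ W, u ∈ Y' → q u ≠ y
        · exact aux y hn hy hc hq hq'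
        · push Not at hq'
          obtain ⟨u, hu, hY', rfl⟩ := hq'
          have huY : u ∉ Y := fun hh => hq u hu hh rfl
          have e1 : κ (hi u) = c := by rw [← G.Wqk u hu]; exact hc
          have e2 : dep r g (q u) = h (q u) := by
            apply D_eq G Y hy hc hq
            intro v hv hvY hvc
            rw [G.Wqh u hu]
            exact hlev u (hWU hu) e1 hY' huY v (hWU hv) hvc hvY
          rw [e2]
          exact D_ge G Y' hy
      · push Not at hq
        obtain ⟨u, hu, hY, rfl⟩ := hq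
        have e1 : κ (hi u) = c := by rw [← G.Wqk u hu]; exact hc
        have hY' : u ∈ Y' := hmon u (hWU hu) e1 hY
        rw [hg, hg', D_q G Y hu hY, D_q G Y' hu hY', ← hg, ← hg']
        have := aux (hi u) (by rw [← G.Wqh u hu]; exact hn) (G.hiI u (G.WI hu)) e1
          (fun v hv _ => (G.Wne v hv u (G.WI hu)).2) (fun v hv _ => (G.Wne v hv u (G.WI hu)).2)
        omega
  -- the strict case
  have hst : ∀ u ∈ U, u ∉ W → κ (hi u) = c → κ (lo u) = c → h (lo u) < h (hi u) → u ∈ Y' →
      u ∉ Y → dep r g u < dep r g' u := by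
    intro u hu huW k1 k2 k3 k4 k5
    have huI := hUI hu
    have e1 : dep r g (lo u) = h (lo u) := by
      apply D_eq G Y (G.loI u huI) k2 (fun v hv _ => (G.Wne v hv u huI).1)
      intro v hv hvY hvc
      have := hlev u hu k1 k4 k5 v (hWU hv) hvc hvY
      omega
    have e2 : h (hi u) ≤ dep r g' (hi u) := D_ge G Y' (G.hiI u huI)
    rw [hg, D_I G Y huI, fY_lo huI k5, hg', D_I G Y' huI, fY_hi huI k4, ← hg, ← hg', e1]
    omega
  -- (4)
  have h4 : ∀ y, cl K g y = c → cl K g' y = c ∧ dep r g y ≤ dep r g' y := by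
    intro y hy
    by_cases hyI : y ∈ I
    · rw [hg, fY_clI G Y y hyI] at hy
      rw [hg', fY_clI G Y' y hyI, hg, D_I G Y hyI, D_I G Y' hyI, ← hg, ← hg']
      have same : fY f I lo hi q W Y' y = fY f I lo hi q W Y y →
          κ (fY f I lo hi q W Y' y) = c ∧
            dep r g (fY f I lo hi q W Y y) + 1 ≤ dep r g' (fY f I lo hi q W Y' y) + 1 := by
        intro e
        rw [e]
        exact ⟨hy, Nat.succ_le_succ (h3 _ (fY_I G hyI).1 hy)⟩
      by_cases hyU : y ∈ U
      · by_cases hyY : y ∈ Y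
        · rw [fY_hi hyI hyY] at hy
          have hyY' : y ∈ Y' := hmon y hyU hy hyY
          apply same
          rw [fY_hi hyI hyY, fY_hi hyI hyY']
        · rw [fY_lo hyI hyY] at hy
          by_cases hyY' : y ∈ Y'
          · by_cases hyW : y ∈ W
            · apply same
              rw [fY_lo hyI hyY, fY_hi hyI hyY', G.Wlo y hyW]
            · rcases hty y hyU hyW with e | ⟨e1, e2⟩
              · rw [hy] at e; exact absurd hcJ e
              · have e3 : κ (hi y) = c := by rw [← e1]; exact hy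
                have e4 := hst y hyU hyW e3 hy e2 hyY' hyY
                rw [hg, D_I G Y hyI, hg', D_I G Y' hyI, ← hg, ← hg'] at e4
                refine ⟨?_, e4.le⟩
                rw [hg', fY_hi hyI hyY']; exact e3
          · apply same
            rw [fY_lo hyI hyY, fY_lo hyI hyY']
      · have hyY : y ∉ Y := fun e => hyU (hYU y e)
        have hyY' : y ∉ Y' := fun e => hyU (hYU' y e)
        apply same
        rw [fY_lo hyI hyY, fY_lo hyI hyY']
    · rw [hg, fY_cl G Y y hyI] at hy
      rw [hg', fY_cl G Y' y hyI]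
      exact ⟨hy, h3 y hyI hy⟩
  -- (5)
  unfold th
  apply Finset.sum_lt_sum
  · intro y _
    by_cases hy : cl K g y = c
    · obtain ⟨k1, k2⟩ := h4 y hy
      rw [Set.indicator_of_mem (show y ∈ {y : V | cl K g y = c} from hy),
        Set.indicator_of_mem (show y ∈ {y : V | cl K g' y = c} from k1)]
      exact k2
    · rw [Set.indicator_of_notMem (show y ∉ {y : V | cl K g y = c} from hy)]
      exact Nat.zero_le _
  · obtain ⟨u, hu, k1, k2, k3⟩ := hex
    have huI := hUI hu
    by_cases huW : u ∈ W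
    · refine ⟨q u, Finset.mem_univ _, ?_⟩
      have hqc : κ (q u) = c := by rw [G.Wqk u huW]; exact k1
      have c1 : cl K g (q u) = c := by rw [hg, fY_cl G Y _ (G.WqI u huW)]; exact hqc
      have c2 : cl K g' (q u) = c := by rw [hg', fY_cl G Y' _ (G.WqI u huW)]; exact hqc
      rw [Set.indicator_of_mem (show q u ∈ {y : V | cl K g y = c} from c1),
        Set.indicator_of_mem (show q u ∈ {y : V | cl K g' y = c} from c2)]
      have e1 : dep r g (q u) = h (q u) := by
        apply D_eq G Y (G.WqI u huW) hqc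
        · intro v hv hvY e
          exact k3 (G.Winj v hv u huW e ▸ hvY)
        · intro v hv hvY hvc
          rw [G.Wqh u huW]
          exact hlev u hu k1 k2 k3 v (hWU hv) hvc hvY
      have e2 : h (hi u) ≤ dep r g' (hi u) := D_ge G Y' (G.hiI u huI)
      rw [e1, hg', D_q G Y' huW k2, ← hg', G.Wqh u huW]
      omega
    · refine ⟨u, Finset.mem_univ _, ?_⟩
      have c2 : cl K g' u = c := by rw [hg', fY_clI G Y' u huI, fY_hi huI k2]; exact k1
      rw [Set.indicator_of_mem (show u ∈ {y : V | cl K g' y = c} from c2)]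
      rcases hty u hu huW with e | ⟨e1, e2⟩
      · have c1 : ¬ cl K g u = c := by
          rw [hg, fY_clI G Y u huI, fY_lo huI k3]
          intro hh
          rw [hh] at e
          exact e hcJ
        rw [Set.indicator_of_notMem (show u ∉ {y : V | cl K g y = c} from c1), hg',
          D_I G Y' huI]
        exact Nat.succ_pos _
      · have c0 : κ (lo u) = c := by rw [e1]; exact k1
        have c1 : cl K g u = c := by
          rw [hg, fY_clI G Y u huI, fY_lo huI k3]; exact c0
        rw [Set.indicator_of_mem (show u ∈ {y : V | cl K g y = c} from c1)]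
        exact hst u hu huW k1 c0 e2 k2 k3

end Pool.Agent.Q121.ST
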