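import Pool.Agent.Q164.ST.Stm

set_option autoImplicit false

/-! Project ST (MP_b146e7_co): JOB THEQ (helper121) -/

namespace Pool.Agent.Q121.ST

open Pool.Agent.Q164.ST

theorem dep_equiv {V : Type} {r : V} {f f' : V → V} (hf : IsPar r f) (hf' : IsPar r f')
    (ψ : V ≃ V) (hψ : ∀ v, ψ (f v) = f' (ψ v)) (hr : ψ r = r) (y : V) :
    dep r f y = dep r f' (ψ y) := by
  apply dep_unique hf (fun y => dep r f' (ψ y))
  · show dep r f' (ψ r) = 0
    rw [hr, dep_root]
  · intro v hv
    show dep r f' (ψ v) = dep r f' (ψ (f v)) + 1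
    rw [hψ, ← dep_succ hf']
    intro h
    apply hv
    apply ψ.injective
    rw [h, hr]

theorem cl_equiv {V : Type} {r : V} {f f' : V → V} {K : Set V} (hf : IsPar r f)
    (hf' : IsPar r f') (hrK : r ∈ K) (ψ : V ≃ V) (hψ : ∀ v, ψ (f v) = f' (ψ v))
    (hK : ∀ v ∈ K, ψ v = v) (y : V) : cl K f' (ψ y) = cl K f y := by
  suffices H : ∀ n : ℕ, ∀ y, dep r f y ≤ n → cl K f' (ψ y) = cl K f y from H _ y le_rfl
  intro n
  induction n with
  | zero =>
    intro y hy
    have : y = r := dep_eq_zero hf (Nat.le_zero.1 hy)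
    rw [this, hK r hrK, cl_of_mem f hrK, cl_of_mem f' hrK]
  | succ n ih =>
    intro y hy
    by_cases h : y ∈ K
    · rw [hK y h, cl_of_mem f h, cl_of_mem f' h]
    · have h' : ψ y ∉ K := by
        intro hh
        apply h
        have := hK _ hh
        rw [ψ.injective this] at hh
        exact hh
      rw [cl_of_not_mem hf' hrK h', cl_of_not_mem hf hrK h, ← hψ]
      apply ih
      have hyr : y ≠ r := fun hh => h (hh ▸ hrK)
      have := dep_succ hf hyr
      omega

theorem task_THEQ : S_THEQ := by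
  intro V _ r f f' K hf hf' hrK ψ hψ hK c
  unfold th
  rw [← Equiv.sum_comp ψ (fun y => Set.indicator {y : V | cl K f' y = c} (dep r f') y)]
  refine Finset.sum_congr rfl fun y _ => ?_
  by_cases h : cl K f y = c
  · have h' : cl K f' (ψ y) = c := by rw [cl_equiv hf hf' hrK ψ hψ hK]; exact h
    rw [Set.indicator_of_mem (show y ∈ {y : V | cl K f y = c} from h),
      Set.indicator_of_mem (show ψ y ∈ {y : V | cl K f' y = c} from h')]
    exact dep_equiv hf hf' ψ hψ (hK r hrK) y
  · have h' : ¬ cl K f' (ψ y) = c := by rw [cl_equiv hf hf' hrK ψ hψ hK]; exact h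
    rw [Set.indicator_of_notMem (show y ∉ {y : V | cl K f y = c} from h),
      Set.indicator_of_notMem (show ψ y ∉ {y : V | cl K f' y = c} from h')]

end Pool.Agent.Q121.ST
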